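import Pool.Agent.MP_8400ad_co.Main

set_option autoImplicit false

namespace Pool.Agent.Results.MP_8400ad_co.SharpBound

open Pool.Agent.MP_8400ad_co

/-- How small the strong geodetic number of a Cartesian product can be in terms of a factor. -/
theorem result :
    (∀ (V W : Type) [Fintype V] [Fintype W] [Nontrivial V] (G : SimpleGraph V)
      (H : SimpleGraph W), G.Connected → H.Connected →
        sg G ≤ max (sg (G.boxProd H)) (sg (G.boxProd H) ^ 2 / 4)) ∧
    (∀ (V : Type) [Fintype V] [Nontrivial V] (G : SimpleGraph V), G.Connected →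
        sg G ≤ max (sg (G.boxProd (⊤ : SimpleGraph (Fin 2))))
          ((sg (G.boxProd (⊤ : SimpleGraph (Fin 2))) / 2) ^ 2 +
            sg (G.boxProd (⊤ : SimpleGraph (Fin 2))) % 2)) ∧
    (∀ s : ℕ, 6 ≤ s →
        sg ((completeBipartiteGraph (Fin (s / 2)) (Fin (3 * (s / 2).choose 2 + s % 2))).boxProd
          (⊤ : SimpleGraph (Fin 2))) = s ∧
        sg (completeBipartiteGraph (Fin (s / 2)) (Fin (3 * (s / 2).choose 2 + s % 2))) =
          (s / 2) ^ 2 + s % 2) :=
  ⟨fun _ _ _ _ _ _ _ hG hH => general hG hH, fun _ _ _ _ hG => prism hG, sharp⟩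

end Pool.Agent.Results.MP_8400ad_co.SharpBound
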